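import Mathlib

/-!
# Small subsets witnessing discrete Brunn-Minkowski growth: dimension at least four

The lattice points `A` below a paraboloid.  The points of `A + A` at depth at most `δ` below
the boundary come from pairs of points whose horizontal distance is at most `√δ`.  Cutting the
horizontal directions into cells of that size and counting the pairs in neighbouring cells shows
that a subset `A'` with `|A' + A'| ≥ (2^k - ε)|A|` has at least `a ε^(-(k-3)/4) √|A|` elements.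
-/

namespace Pool.Agent.Results.MP_0aa4f4_co.DimensionAtLeastFour

open Finset
open scoped Pointwise

/-- The finite set `A` of lattice points lies in `t` parallel hyperplanes. -/
def InHyperplanes {k : ℕ} (A : Finset (Fin k → ℤ)) (t : ℕ) : Prop :=
  ∃ v : Fin k → ℝ, v ≠ 0 ∧ ∃ s : Fin t → ℝ, ∀ a ∈ A, ∃ j, ∑ i, v i * (a i : ℝ) = s j

/-- The constant `c` works for `ε` in dimension `k`: there is `t` such that every finite
`A ⊆ ℤ^k` which is not contained in `t` parallel hyperplanes has a subset `A'` with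
`|A'| ≤ c √|A|` and `|A' + A'| ≥ (2^k - ε) |A|`. -/
def Works (k : ℕ) (c ε : ℝ) : Prop :=
  ∃ t : ℕ, ∀ A : Finset (Fin k → ℤ), ¬ InHyperplanes A t →
    ∃ A' ⊆ A, (A'.card : ℝ) ≤ c * Real.sqrt A.card ∧
      ((2 : ℝ) ^ k - ε) * A.card ≤ ((A' + A').card : ℝ)

variable {d : ℕ}

/-- The (doubled) depth of a point below the boundary of `A + A`. -/
def depth (N : ℤ) (f : Fin (d + 1) → ℤ) : ℤ :=
  4 * N ^ 2 - 2 * f 0 - ∑ i : Fin d, f i.succ ^ 2

/-- The lattice points of the positive orthant below the paraboloid. -/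
noncomputable def A (d : ℕ) (N : ℤ) : Finset (Fin (d + 1) → ℤ) :=
  (Fintype.piFinset fun _ => Icc (0 : ℤ) (N ^ 2)).filter
    (fun f => f 0 + ∑ i : Fin d, f i.succ ^ 2 ≤ N ^ 2)

/-- The region which contains `A + A`. -/
noncomputable def T (d : ℕ) (N : ℤ) : Finset (Fin (d + 1) → ℤ) :=
  (Fintype.piFinset fun _ => Icc (0 : ℤ) (4 * N ^ 2)).filter (fun f => 0 ≤ depth N f)

/-- The points of small depth. -/
noncomputable def S (d : ℕ) (N M : ℤ) : Finset (Fin (d + 1) → ℤ) :=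
  (T d N).filter (fun f => depth N f ≤ M ^ 2)

lemma le_sq_of_nonneg {x : ℤ} (hx : 0 ≤ x) : x ≤ x ^ 2 := by
  rcases hx.eq_or_lt with h | h
  · rw [← h]; norm_num
  · nlinarith

lemma mem_A {N : ℤ} {f : Fin (d + 1) → ℤ} :
    f ∈ A d N ↔ (∀ i, 0 ≤ f i) ∧ f 0 + ∑ i : Fin d, f i.succ ^ 2 ≤ N ^ 2 := by
  unfold A
  rw [mem_filter, Fintype.mem_piFinset]
  constructor
  · rintro ⟨h1, h2⟩
    exact ⟨fun i => (mem_Icc.1 (h1 i)).1, h2⟩
  · rintro ⟨h1, h2⟩
    refine ⟨fun i => mem_Icc.2 ⟨h1 i, ?_⟩, h2⟩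
    have hs : 0 ≤ ∑ i : Fin d, f i.succ ^ 2 := sum_nonneg fun i _ => sq_nonneg _
    have h0 := h1 0
    refine Fin.cases ?_ ?_ i
    · linarith
    · intro j
      have hj : f j.succ ^ 2 ≤ ∑ i : Fin d, f i.succ ^ 2 :=
        single_le_sum (f := fun i : Fin d => f i.succ ^ 2) (fun i _ => sq_nonneg _) (mem_univ j)
      have := le_sq_of_nonneg (h1 j.succ)
      linarith

lemma mem_T {N : ℤ} {f : Fin (d + 1) → ℤ} :
    f ∈ T d N ↔ (∀ i, 0 ≤ f i) ∧ 0 ≤ depth N f := by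
  unfold T
  rw [mem_filter, Fintype.mem_piFinset]
  constructor
  · rintro ⟨h1, h2⟩
    exact ⟨fun i => (mem_Icc.1 (h1 i)).1, h2⟩
  · rintro ⟨h1, h2⟩
    refine ⟨fun i => mem_Icc.2 ⟨h1 i, ?_⟩, h2⟩
    have hs : 0 ≤ ∑ i : Fin d, f i.succ ^ 2 := sum_nonneg fun i _ => sq_nonneg _
    have h0 := h1 0
    unfold depth at h2
    refine Fin.cases ?_ ?_ i
    · linarith
    · intro j
      have hj : f j.succ ^ 2 ≤ ∑ i : Fin d, f i.succ ^ 2 :=
        single_le_sum (f := fun i : Fin d => f i.succ ^ 2) (fun i _ => sq_nonneg _) (mem_univ j)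
      have := le_sq_of_nonneg (h1 j.succ)
      linarith

lemma mem_S {N M : ℤ} {f : Fin (d + 1) → ℤ} :
    f ∈ S d N M ↔ (∀ i, 0 ≤ f i) ∧ 0 ≤ depth N f ∧ depth N f ≤ M ^ 2 := by
  unfold S
  rw [mem_filter, mem_T, and_assoc]

lemma dist_le_depth {N : ℤ} {x y : Fin (d + 1) → ℤ} (hx : x ∈ A d N) (hy : y ∈ A d N) :
    ∑ i : Fin d, (x i.succ - y i.succ) ^ 2 ≤ depth N (x + y) := by
  have h1 := (mem_A.1 hx).2
  have h2 := (mem_A.1 hy).2
  have h3 : ∑ i : Fin d, (x i.succ - y i.succ) ^ 2 + ∑ i : Fin d, (x + y) i.succ ^ 2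
      = 2 * ∑ i : Fin d, x i.succ ^ 2 + 2 * ∑ i : Fin d, y i.succ ^ 2 := by
    rw [mul_sum, mul_sum, ← sum_add_distrib, ← sum_add_distrib]
    refine sum_congr rfl fun i _ => ?_
    simp only [Pi.add_apply]
    ring
  unfold depth
  have h4 : (x + y) 0 = x 0 + y 0 := rfl
  rw [h4]
  linarith

lemma add_subset_T {N : ℤ} : A d N + A d N ⊆ T d N := by
  intro z hz
  obtain ⟨x, hx, y, hy, rfl⟩ := mem_add.1 hz
  refine mem_T.2 ⟨fun i => add_nonneg ((mem_A.1 hx).1 i) ((mem_A.1 hy).1 i), ?_⟩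
  exact le_trans (sum_nonneg fun i _ => sq_nonneg _) (dist_le_depth hx hy)

lemma card_T_le (N : ℤ) : (T d N).card ≤ 2 ^ (d + 1) * (A d N).card := by
  have hcard : ((A d N) ×ˢ (Fintype.piFinset fun _ : Fin (d + 1) => Icc (0 : ℤ) 1)).card
      = 2 ^ (d + 1) * (A d N).card := by
    rw [card_product, Fintype.card_piFinset]
    simp [mul_comm]
  rw [← hcard]
  refine card_le_card_of_injOn (fun f => (fun i => f i / 2, fun i => f i % 2)) ?_ ?_
  · intro f hf
    have hf := mem_T.1 (mem_coe.1 hf)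
    refine mem_coe.2 (mem_product.2 ⟨mem_A.2 ⟨fun i => ?_, ?_⟩, ?_⟩)
    · exact Int.ediv_nonneg (hf.1 i) (by norm_num)
    · have h1 : 4 * ∑ i : Fin d, (f i.succ / 2) ^ 2 ≤ ∑ i : Fin d, f i.succ ^ 2 := by
        rw [mul_sum]
        refine sum_le_sum fun i _ => ?_
        have h2 : 0 ≤ f i.succ / 2 := Int.ediv_nonneg (hf.1 _) (by norm_num)
        have h3 : 2 * (f i.succ / 2) ≤ f i.succ := by omega
        nlinarith
      have h2 := hf.2
      unfold depth at h2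
      have h3 : 2 * (f 0 / 2) ≤ f 0 := by omega
      dsimp only
      linarith
    · rw [Fintype.mem_piFinset]
      intro i
      rw [mem_Icc]
      change 0 ≤ f i % 2 ∧ f i % 2 ≤ 1
      omega
  · intro f _ g _ h
    simp only [Prod.mk.injEq] at h
    funext i
    have h1 : f i / 2 = g i / 2 := congrFun h.1 i
    have h2 : f i % 2 = g i % 2 := congrFun h.2 i
    omega

/-- The shell is large. -/
lemma card_S_ge (N L M' : ℕ) (h : d * L ^ 2 + 4 * M' ^ 2 ≤ 4 * N ^ 2) :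
    L ^ d * (2 * M' ^ 2) ≤ (S d (N : ℤ) (2 * M' : ℤ)).card := by
  have hcard : (Finset.univ : Finset ((Fin d → Fin L) × Fin (2 * M' ^ 2))).card
      = L ^ d * (2 * M' ^ 2) := by
    rw [Finset.card_univ]
    simp
  rw [← hcard]
  refine card_le_card_of_injOn (fun p => Fin.cons
    ((4 * (N : ℤ) ^ 2 - ∑ i : Fin d, ((p.1 i : ℕ) : ℤ) ^ 2) / 2 - ((p.2 : ℕ) : ℤ))
    (fun i => ((p.1 i : ℕ) : ℤ))) ?_ ?_
  · rintro ⟨w, j⟩ _
    have hw : ∑ i : Fin d, ((w i : ℕ) : ℤ) ^ 2 ≤ d * (L : ℤ) ^ 2 := by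
      have : ∑ i : Fin d, ((w i : ℕ) : ℤ) ^ 2 ≤ ∑ _i : Fin d, (L : ℤ) ^ 2 := by
        refine sum_le_sum fun i _ => ?_
        have h1 : ((w i : ℕ) : ℤ) ≤ L := by exact_mod_cast (w i).2.le
        have h2 : (0 : ℤ) ≤ ((w i : ℕ) : ℤ) := by positivity
        nlinarith
      simpa using this
    have hj : ((j : ℕ) : ℤ) + 1 ≤ 2 * (M' : ℤ) ^ 2 := by exact_mod_cast j.2
    have hj0 : (0 : ℤ) ≤ ((j : ℕ) : ℤ) := by positivity
    have h' : (d : ℤ) * (L : ℤ) ^ 2 + 4 * (M' : ℤ) ^ 2 ≤ 4 * (N : ℤ) ^ 2 := by exact_mod_cast h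
    set Q : ℤ := ∑ i : Fin d, ((w i : ℕ) : ℤ) ^ 2 with hQ
    have hdep : depth (N : ℤ) (Fin.cons ((4 * (N : ℤ) ^ 2 - Q) / 2 - ((j : ℕ) : ℤ))
        (fun i => ((w i : ℕ) : ℤ)) : Fin (d + 1) → ℤ)
        = (4 * (N : ℤ) ^ 2 - Q) - 2 * ((4 * (N : ℤ) ^ 2 - Q) / 2 - ((j : ℕ) : ℤ)) := by
      unfold depth
      simp only [Fin.cons_zero, Fin.cons_succ]
      rw [← hQ]
      ring
    refine mem_coe.2 (mem_S.2 ⟨fun i => ?_, ?_, ?_⟩)
    · refine Fin.cases ?_ ?_ i
      · simp only [Fin.cons_zero]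
        omega
      · intro i
        simp only [Fin.cons_succ]
        positivity
    · dsimp only
      rw [hdep]
      omega
    · dsimp only
      rw [hdep]
      have : (2 * (M' : ℤ)) ^ 2 = 4 * (M' : ℤ) ^ 2 := by ring
      rw [this]
      omega
  · rintro ⟨w, j⟩ _ ⟨w', j'⟩ _ h
    dsimp only at h
    rw [Fin.cons_inj] at h
    have hw : w = w' := by
      funext i
      have := congrFun h.2 i
      exact Fin.ext (by exact_mod_cast this)
    subst hw
    have : ((j : ℕ) : ℤ) = ((j' : ℕ) : ℤ) := by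
      have := h.1
      linarith
    have : j = j' := Fin.ext (by exact_mod_cast this)
    rw [this]

/-- The cell of a point. -/
def cell (M : ℤ) (x : Fin (d + 1) → ℤ) : Fin d → ℤ := fun i => x i.succ / M

/-- A point is near a cell. -/
def near (M : ℤ) (x : Fin (d + 1) → ℤ) (I : Fin d → ℤ) : Prop :=
  I ∈ Fintype.piFinset fun i => Icc (cell M x i - 1) (cell M x i + 1)

noncomputable instance (M : ℤ) (x : Fin (d + 1) → ℤ) (I : Fin d → ℤ) :
    Decidable (near M x I) := Classical.dec _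

/-- Few points of the shell lie over the double of a cell. -/
lemma card_over_cell (N : ℤ) (M : ℕ) (I : Fin d → ℤ) :
    ((S d N M).filter (fun z => ∀ i : Fin d,
      z i.succ ∈ Ico ((M : ℤ) * (2 * I i - 1)) ((M : ℤ) * (2 * I i + 3)))).card
      ≤ (4 * M) ^ d * (M ^ 2 + 1) := by
  have hcard : ((Fintype.piFinset fun i : Fin d =>
      Ico ((M : ℤ) * (2 * I i - 1)) ((M : ℤ) * (2 * I i + 3))) ×ˢ Icc (0 : ℤ) ((M : ℤ) ^ 2)).card
      = (4 * M) ^ d * (M ^ 2 + 1) := by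
    rw [card_product, Fintype.card_piFinset]
    have h1 : ∀ i : Fin d, (Ico ((M : ℤ) * (2 * I i - 1)) ((M : ℤ) * (2 * I i + 3))).card
        = 4 * M := by
      intro i
      rw [Int.card_Ico]
      have : (M : ℤ) * (2 * I i + 3) - (M : ℤ) * (2 * I i - 1) = ((4 * M : ℕ) : ℤ) := by
        push_cast; ring
      rw [this, Int.toNat_natCast]
    rw [prod_congr rfl fun i _ => h1 i]
    have h2 : (Icc (0 : ℤ) ((M : ℤ) ^ 2)).card = M ^ 2 + 1 := by
      rw [Int.card_Icc]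
      have : (M : ℤ) ^ 2 + 1 - 0 = ((M ^ 2 + 1 : ℕ) : ℤ) := by push_cast; ring
      rw [this, Int.toNat_natCast]
    rw [h2]
    simp
  rw [← hcard]
  refine card_le_card_of_injOn (fun z => (fun i => z i.succ, depth N z)) ?_ ?_
  · intro z hz
    have hz := mem_filter.1 (mem_coe.1 hz)
    have h1 := mem_S.1 hz.1
    refine mem_coe.2 (mem_product.2 ⟨?_, ?_⟩)
    · rw [Fintype.mem_piFinset]
      exact hz.2
    · rw [mem_Icc]
      exact h1.2
  · intro z _ z' _ h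
    simp only [Prod.mk.injEq] at h
    have h1 : ∀ i : Fin d, z i.succ = z' i.succ := fun i => congrFun h.1 i
    have h2 := h.2
    unfold depth at h2
    rw [sum_congr rfl fun i _ => by rw [h1 i]] at h2
    funext i
    refine Fin.cases ?_ ?_ i
    · linarith
    · exact h1

lemma sqrt_three_le {a b m x : ℝ} (ha : 0 ≤ a) (hb : 0 ≤ b) (hm : 0 ≤ m) (hx : 0 ≤ x)
    (h1 : x ≤ a * b) (h2 : x ≤ m) : x ≤ Real.sqrt m * ((a + b) / 2) := by
  have h3 : x ^ 2 ≤ m * (a * b) := by nlinarith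
  have h4 : m * (a * b) ≤ m * ((a + b) / 2) ^ 2 := by
    refine mul_le_mul_of_nonneg_left ?_ hm
    nlinarith [sq_nonneg (a - b)]
  have h5 : x ^ 2 ≤ (Real.sqrt m * ((a + b) / 2)) ^ 2 := by
    rw [mul_pow, Real.sq_sqrt hm]
    linarith
  exact (sq_le_sq₀ hx (by positivity)).1 h5

/-- The main counting. -/
lemma card_inter_le (N : ℤ) (M : ℕ) (hM : 0 < M) (B : Finset (Fin (d + 1) → ℤ))
    (hB : B ⊆ A d N) :
    (((S d N M) ∩ (B + B)).card : ℝ) ≤
      Real.sqrt (((4 * M) ^ d * (M ^ 2 + 1) : ℕ) : ℝ) * ((1 + 3 ^ d) / 2 * B.card) := by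
  classical
  set m : ℕ := (4 * M) ^ d * (M ^ 2 + 1) with hm
  set C : Finset (Fin d → ℤ) := B.image (cell (M : ℤ)) with hC
  set a : (Fin d → ℤ) → Finset (Fin (d + 1) → ℤ) := fun I => B.filter (fun x => cell (M : ℤ) x = I)
    with ha
  set b : (Fin d → ℤ) → Finset (Fin (d + 1) → ℤ) := fun I => B.filter (fun x => near (M : ℤ) x I)
    with hb
  have hMZ : (0 : ℤ) < M := by exact_mod_cast hM
  -- covering
  have hcov : (S d N M) ∩ (B + B) ⊆ C.biUnion (fun I => (S d N M) ∩ (a I + b I)) := by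
    intro z hz
    rw [mem_inter] at hz
    obtain ⟨x, hx, y, hy, rfl⟩ := mem_add.1 hz.2
    rw [mem_biUnion]
    refine ⟨cell (M : ℤ) x, mem_image_of_mem _ hx, mem_inter.2 ⟨hz.1, ?_⟩⟩
    refine add_mem_add (mem_filter.2 ⟨hx, rfl⟩) (mem_filter.2 ⟨hy, ?_⟩)
    unfold near
    rw [Fintype.mem_piFinset]
    intro i
    rw [mem_Icc]
    have h1 := dist_le_depth (hB hx) (hB hy)
    have h2 := (mem_S.1 hz.1).2.2
    have h3 : (x i.succ - y i.succ) ^ 2 ≤ ∑ i : Fin d, (x i.succ - y i.succ) ^ 2 :=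
      single_le_sum (f := fun i : Fin d => (x i.succ - y i.succ) ^ 2)
        (fun i _ => sq_nonneg _) (mem_univ i)
    have h4 : (x i.succ - y i.succ) ^ 2 ≤ (M : ℤ) ^ 2 := by linarith
    have h5 := abs_le_of_sq_le_sq' h4 hMZ.le
    unfold cell
    constructor
    · have : y i.succ ≤ x i.succ + M * 1 := by linarith
      have h6 := Int.ediv_le_ediv hMZ this
      rw [Int.add_mul_ediv_left _ _ hMZ.ne'] at h6
      linarith
    · have : x i.succ ≤ y i.succ + M * 1 := by linarith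
      have h6 := Int.ediv_le_ediv hMZ this
      rw [Int.add_mul_ediv_left _ _ hMZ.ne'] at h6
      linarith
  -- each term
  have hterm : ∀ I ∈ C, (((S d N M) ∩ (a I + b I)).card : ℝ) ≤
      Real.sqrt (m : ℝ) * ((((a I).card : ℝ) + (b I).card) / 2) := by
    intro I _
    refine sqrt_three_le (by positivity) (by positivity) (by positivity) (by positivity) ?_ ?_
    · have : ((S d N M) ∩ (a I + b I)).card ≤ (a I).card * (b I).card :=
        (card_le_card inter_subset_right).trans card_add_le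
      exact_mod_cast this
    · have : ((S d N M) ∩ (a I + b I)).card ≤ m := by
        refine le_trans (card_le_card ?_) (card_over_cell N M I)
        intro z hz
        rw [mem_inter] at hz
        obtain ⟨x, hx, y, hy, rfl⟩ := mem_add.1 hz.2
        refine mem_filter.2 ⟨hz.1, fun i => ?_⟩
        have hx := (mem_filter.1 hx).2
        have hy := (mem_filter.1 hy).2
        unfold near at hy
        rw [Fintype.mem_piFinset] at hy
        have hyi := mem_Icc.1 (hy i)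
        have hxi : x i.succ / (M : ℤ) = I i := congrFun hx i
        unfold cell at hyi
        have e1 := Int.emod_add_mul_ediv (x i.succ) M
        have e2 := Int.emod_add_mul_ediv (y i.succ) M
        have e3 := Int.emod_nonneg (x i.succ) hMZ.ne'
        have e4 := Int.emod_nonneg (y i.succ) hMZ.ne'
        have e5 := Int.emod_lt_of_pos (x i.succ) hMZ
        have e6 := Int.emod_lt_of_pos (y i.succ) hMZ
        rw [hxi] at e1
        rw [mem_Ico]
        simp only [Pi.add_apply]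
        constructor
        · nlinarith
        · nlinarith
      exact_mod_cast this
  -- sums
  have hsa : ∑ I ∈ C, ((a I).card : ℝ) = B.card := by
    have : B.card = ∑ I ∈ C, (a I).card :=
      card_eq_sum_card_fiberwise (fun x hx => mem_coe.2 (mem_image_of_mem _ (mem_coe.1 hx)))
    rw [this]
    push_cast
    rfl
  have hsb : ∑ I ∈ C, ((b I).card : ℝ) ≤ 3 ^ d * B.card := by
    have h1 : ∑ I ∈ C, (b I).card = ∑ x ∈ B, (C.filter (fun I => near (M : ℤ) x I)).card := by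
      simp only [hb, card_filter]
      rw [sum_comm]
    have h2 : ∀ x ∈ B, (C.filter (fun I => near (M : ℤ) x I)).card ≤ 3 ^ d := by
      intro x _
      have h3 : C.filter (fun I => near (M : ℤ) x I) ⊆
          Fintype.piFinset fun i => Icc (cell (M : ℤ) x i - 1) (cell (M : ℤ) x i + 1) := by
        intro I hI
        exact (mem_filter.1 hI).2
      refine (card_le_card h3).trans ?_
      rw [Fintype.card_piFinset]
      have h4 : ∀ i : Fin d, (Icc (cell (M : ℤ) x i - 1) (cell (M : ℤ) x i + 1)).card = 3 := by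
        intro i
        rw [Int.card_Icc]
        have : cell (M : ℤ) x i + 1 + 1 - (cell (M : ℤ) x i - 1) = 3 := by ring
        rw [this]
        rfl
      rw [prod_congr rfl fun i _ => h4 i]
      simp
    have h5 : ∑ I ∈ C, (b I).card ≤ 3 ^ d * B.card := by
      rw [h1]
      refine (sum_le_sum h2).trans ?_
      simp [mul_comm]
    exact_mod_cast h5
  calc (((S d N M) ∩ (B + B)).card : ℝ)
      ≤ ((C.biUnion (fun I => (S d N M) ∩ (a I + b I))).card : ℝ) := by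
        exact_mod_cast card_le_card hcov
    _ ≤ ∑ I ∈ C, (((S d N M) ∩ (a I + b I)).card : ℝ) := by
        exact_mod_cast card_biUnion_le
    _ ≤ ∑ I ∈ C, Real.sqrt (m : ℝ) * ((((a I).card : ℝ) + (b I).card) / 2) :=
        sum_le_sum hterm
    _ = Real.sqrt (m : ℝ) * ((∑ I ∈ C, ((a I).card : ℝ) + ∑ I ∈ C, ((b I).card : ℝ)) / 2) := by
        rw [← mul_sum, ← sum_div, sum_add_distrib]
    _ ≤ Real.sqrt (m : ℝ) * ((1 + 3 ^ d) / 2 * B.card) := by
        refine mul_le_mul_of_nonneg_left ?_ (Real.sqrt_nonneg _)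
        rw [hsa]
        linarith

/-- The set `A` is not too large. -/
lemma card_A_le (N : ℕ) : (A d (N : ℤ)).card ≤ (N + 1) ^ d * (N ^ 2 + 1) := by
  have hcard : ((Fintype.piFinset fun _ : Fin d => Icc (0 : ℤ) (N : ℤ)) ×ˢ
      Icc (0 : ℤ) ((N : ℤ) ^ 2)).card = (N + 1) ^ d * (N ^ 2 + 1) := by
    rw [card_product, Fintype.card_piFinset]
    have h1 : (Icc (0 : ℤ) (N : ℤ)).card = N + 1 := by
      rw [Int.card_Icc]
      have : (N : ℤ) + 1 - 0 = ((N + 1 : ℕ) : ℤ) := by push_cast; ring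
      rw [this, Int.toNat_natCast]
    have h2 : (Icc (0 : ℤ) ((N : ℤ) ^ 2)).card = N ^ 2 + 1 := by
      rw [Int.card_Icc]
      have : (N : ℤ) ^ 2 + 1 - 0 = ((N ^ 2 + 1 : ℕ) : ℤ) := by push_cast; ring
      rw [this, Int.toNat_natCast]
    rw [h2, h1]
    simp
  rw [← hcard]
  refine card_le_card_of_injOn (fun z => (fun i => z i.succ, z 0)) ?_ ?_
  · intro z hz
    have hz := mem_A.1 (mem_coe.1 hz)
    have hs : 0 ≤ ∑ i : Fin d, z i.succ ^ 2 := sum_nonneg fun i _ => sq_nonneg _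
    have h0 := hz.1 0
    refine mem_coe.2 (mem_product.2 ⟨?_, ?_⟩)
    · rw [Fintype.mem_piFinset]
      intro i
      rw [mem_Icc]
      refine ⟨hz.1 _, ?_⟩
      have hj : z i.succ ^ 2 ≤ ∑ i : Fin d, z i.succ ^ 2 :=
        single_le_sum (f := fun i : Fin d => z i.succ ^ 2) (fun i _ => sq_nonneg _) (mem_univ i)
      have h1 : z i.succ ^ 2 ≤ (N : ℤ) ^ 2 := by linarith [hz.2]
      exact (abs_le_of_sq_le_sq' h1 (by positivity)).2
    · rw [mem_Icc]
      exact ⟨h0, by linarith [hz.2]⟩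
  · intro z _ z' _ h
    simp only [Prod.mk.injEq] at h
    funext i
    refine Fin.cases h.2 ?_ i
    intro i
    exact congrFun h.1 i

lemma card_A_pos (N : ℕ) : 0 < (A d (N : ℤ)).card := by
  rw [card_pos]
  refine ⟨0, mem_A.2 ⟨fun i => le_refl _, ?_⟩⟩
  simp

/-- The set `A` is not contained in few parallel hyperplanes. -/
lemma not_inHyperplanes (N t : ℕ) (h : t ≤ N) : ¬ InHyperplanes (A d (N : ℤ)) t := by
  classical
  rintro ⟨v, hv, s, hs⟩
  obtain ⟨i, hi⟩ : ∃ i, v i ≠ 0 := by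
    by_contra hcon
    push Not at hcon
    exact hv (funext hcon)
  have hmem : ∀ j : Fin (t + 1), (Pi.single i ((j : ℕ) : ℤ) : Fin (d + 1) → ℤ) ∈ A d (N : ℤ) := by
    intro j
    have hj : ((j : ℕ) : ℤ) ≤ N := by
      have := j.2
      have : (j : ℕ) ≤ N := by omega
      exact_mod_cast this
    have hj0 : (0 : ℤ) ≤ ((j : ℕ) : ℤ) := by positivity
    refine mem_A.2 ⟨fun l => ?_, ?_⟩
    · by_cases hl : l = i
      · subst hl
        rw [Pi.single_eq_same]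
        exact hj0
      · rw [Pi.single_eq_of_ne hl]
    · refine Fin.cases ?_ ?_ i
      · rw [Pi.single_eq_same]
        have : ∑ l : Fin d, (Pi.single (0 : Fin (d + 1)) ((j : ℕ) : ℤ) : Fin (d + 1) → ℤ) l.succ ^ 2
            = 0 := by
          refine sum_eq_zero fun l _ => ?_
          rw [Pi.single_eq_of_ne (Fin.succ_ne_zero l)]
          norm_num
        rw [this]
        nlinarith [le_sq_of_nonneg hj0]
      · intro r
        rw [Pi.single_eq_of_ne (Fin.succ_ne_zero r).symm]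
        have : ∑ l : Fin d, (Pi.single r.succ ((j : ℕ) : ℤ) : Fin (d + 1) → ℤ) l.succ ^ 2
            = ((j : ℕ) : ℤ) ^ 2 := by
          rw [sum_eq_single r]
          · rw [Pi.single_eq_same]
          · intro l _ hl
            rw [Pi.single_eq_of_ne (fun h => hl (Fin.succ_injective _ h))]
            norm_num
          · intro h
            exact absurd (mem_univ r) h
        rw [this]
        nlinarith
  choose g hg using fun j : Fin (t + 1) => hs _ (hmem j)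
  obtain ⟨j, j', hne, heq⟩ := Fintype.exists_ne_map_eq_of_card_lt g (by simp)
  have h1 : ∀ j : Fin (t + 1), ∑ l, v l *
      (((Pi.single i ((j : ℕ) : ℤ) : Fin (d + 1) → ℤ) l : ℤ) : ℝ) = v i * ((j : ℕ) : ℝ) := by
    intro j
    rw [sum_eq_single i]
    · rw [Pi.single_eq_same]
      norm_cast
    · intro l _ hl
      rw [Pi.single_eq_of_ne hl]
      simp
    · intro h
      exact absurd (mem_univ i) h
  have h2 := hg j
  have h3 := hg j'
  rw [h1] at h2 h3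
  rw [heq] at h2
  have h4 : v i * ((j : ℕ) : ℝ) = v i * ((j' : ℕ) : ℝ) := by rw [h2, h3]
  have h5 := mul_left_cancel₀ hi h4
  exact hne (Fin.ext (by exact_mod_cast h5))

/-- The constant of the main inequality. -/
noncomputable def K (d : ℕ) : ℝ := 32 * 36 ^ d * (2 ^ (d + 1) * (d : ℝ) ^ (d + 2))

/-- The threshold. -/
noncomputable def kap (d : ℕ) : ℝ := 1 / (2 ^ (d + 3) * (d : ℝ) ^ (d + 2))

lemma core (hd : 2 ≤ d) (q : ℕ) (hq : 1 ≤ q) {ε c : ℝ} (hε : 0 < ε)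
    (hεq : ε * (q : ℝ) ^ 2 ≤ kap d) (hW : Works (d + 1) c ε) :
    0 ≤ c ∧ (q : ℝ) ^ (d - 2) ≤ K d * c ^ 2 := by
  obtain ⟨t, ht⟩ := hW
  set M' : ℕ := t + 1 with hM'
  set M : ℕ := 2 * M' with hM
  set N : ℕ := d * q * M with hN
  have hM1 : 1 ≤ M := by omega
  have hdq : 1 ≤ d * q := Nat.mul_pos (by omega) hq
  have hNM : M ≤ N := by
    rw [hN]
    exact Nat.le_mul_of_pos_left _ hdq
  have hNt : t ≤ N := by omega
  obtain ⟨B, hBA, hBc, hBs⟩ := ht (A d (N : ℤ)) (not_inHyperplanes N t hNt)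
  set n : ℝ := ((A d (N : ℤ)).card : ℝ) with hn
  set s : ℝ := (B.card : ℝ) with hs
  have hn0 : 0 < n := by
    rw [hn]
    exact_mod_cast card_A_pos N
  have hs0 : 0 ≤ s := by positivity
  have hsn : 0 < Real.sqrt n := Real.sqrt_pos.2 hn0
  have hc0 : 0 ≤ c := by
    by_contra hcon
    push Not at hcon
    nlinarith
  refine ⟨hc0, ?_⟩
  -- real versions
  have hqR : (1 : ℝ) ≤ q := by exact_mod_cast hq
  have hMR : (1 : ℝ) ≤ M := by exact_mod_cast hM1
  have hdR : (2 : ℝ) ≤ d := by exact_mod_cast hd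
  have hNR : (N : ℝ) = d * q * M := by rw [hN]; push_cast; ring
  have hNR1 : (1 : ℝ) ≤ N := by exact_mod_cast (hM1.trans hNM)
  -- upper bound for n
  have hnle : n ≤ 2 ^ (d + 1) * ((d : ℝ) ^ (d + 2) * (q : ℝ) ^ (d + 2) * (M : ℝ) ^ (d + 2)) := by
    have h1 : n ≤ ((N : ℝ) + 1) ^ d * ((N : ℝ) ^ 2 + 1) := by
      rw [hn]
      exact_mod_cast card_A_le (d := d) N
    have h2 : ((N : ℝ) + 1) ^ d * ((N : ℝ) ^ 2 + 1) ≤ (2 * (N : ℝ)) ^ d * (2 * (N : ℝ) ^ 2) := by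
      gcongr
      · linarith
      · nlinarith
    have h3 : (2 * (N : ℝ)) ^ d * (2 * (N : ℝ) ^ 2)
        = 2 ^ (d + 1) * ((d : ℝ) ^ (d + 2) * (q : ℝ) ^ (d + 2) * (M : ℝ) ^ (d + 2)) := by
      rw [hNR]
      ring
    linarith
  -- lower bound for the shell
  set P : ℝ := ((S d (N : ℤ) (M : ℤ)).card : ℝ) with hP
  have hPge : (q : ℝ) ^ d * (M : ℝ) ^ (d + 2) / 2 ≤ P := by
    have h1 := card_S_ge (d := d) N (q * M) M' (by
      have e1 : d * (q * M) ^ 2 ≤ (d * q * M) ^ 2 := by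
        have : (d * q * M) ^ 2 = d * (d * (q * M) ^ 2) := by ring
        rw [this]
        exact Nat.le_mul_of_pos_left _ (by omega)
      have e2 : 4 * M' ^ 2 = M ^ 2 := by rw [hM]; ring
      have e3 : M ^ 2 ≤ N ^ 2 := Nat.pow_le_pow_left hNM 2
      rw [e2, hN] at *
      nlinarith)
    have e4 : (2 * (M' : ℤ)) = (M : ℤ) := by rw [hM]; push_cast; ring
    rw [e4] at h1
    have h2 : (((q * M) ^ d * (2 * M' ^ 2) : ℕ) : ℝ) ≤ P := by
      rw [hP]
      exact_mod_cast h1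
    have h3 : (((q * M) ^ d * (2 * M' ^ 2) : ℕ) : ℝ) = (q : ℝ) ^ d * (M : ℝ) ^ (d + 2) / 2 := by
      have e5 : (M : ℝ) = 2 * M' := by rw [hM]; push_cast; ring
      push_cast
      rw [e5]
      ring
    rw [h3] at h2
    exact h2
  -- upper bound for the covered part
  set C : ℝ := (((S d (N : ℤ) (M : ℤ)) ∩ (B + B)).card : ℝ) with hC
  have hCle : C ≤ Real.sqrt (((4 * M) ^ d * (M ^ 2 + 1) : ℕ) : ℝ) * (3 ^ d * s) := by
    refine (card_inter_le (d := d) (N : ℤ) M (by omega) B hBA).trans ?_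
    refine mul_le_mul_of_nonneg_left ?_ (Real.sqrt_nonneg _)
    refine mul_le_mul_of_nonneg_right ?_ hs0
    have : (1 : ℝ) ≤ 3 ^ d := one_le_pow₀ (by norm_num)
    linarith
  have hC0 : 0 ≤ C := by positivity
  have hCsq : C ^ 2 ≤ 2 * 36 ^ d * (M : ℝ) ^ (d + 2) * s ^ 2 := by
    have h1 : C ^ 2 ≤ (Real.sqrt (((4 * M) ^ d * (M ^ 2 + 1) : ℕ) : ℝ) * (3 ^ d * s)) ^ 2 :=
      pow_le_pow_left₀ hC0 hCle 2
    rw [mul_pow, Real.sq_sqrt (by positivity)] at h1
    have h2 : (((4 * M) ^ d * (M ^ 2 + 1) : ℕ) : ℝ) ≤ (4 * (M : ℝ)) ^ d * (2 * (M : ℝ) ^ 2) := by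
      push_cast
      refine mul_le_mul_of_nonneg_left ?_ (by positivity)
      nlinarith
    have h3 : (((4 * M) ^ d * (M ^ 2 + 1) : ℕ) : ℝ) * (3 ^ d * s) ^ 2
        ≤ (4 * (M : ℝ)) ^ d * (2 * (M : ℝ) ^ 2) * (3 ^ d * s) ^ 2 :=
      mul_le_mul_of_nonneg_right h2 (sq_nonneg _)
    have h4 : (4 * (M : ℝ)) ^ d * (2 * (M : ℝ) ^ 2) * (3 ^ d * s) ^ 2
        = 2 * 36 ^ d * (M : ℝ) ^ (d + 2) * s ^ 2 := by
      have e6 : (36 : ℝ) ^ d = 4 ^ d * 3 ^ d * 3 ^ d := by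
        rw [← mul_pow, ← mul_pow]; norm_num
      rw [e6]
      ring
    linarith
  -- the uncovered part is small
  have hPC : P - C ≤ ε * n := by
    have h1 : (B + B).card + ((S d (N : ℤ) (M : ℤ)) \ (B + B)).card ≤ (T d (N : ℤ)).card := by
      rw [← card_union_of_disjoint disjoint_sdiff]
      refine card_le_card (union_subset ?_ ?_)
      · exact (add_subset_add hBA hBA).trans add_subset_T
      · exact sdiff_subset.trans (filter_subset _ _)
    have h2 := card_T_le (d := d) (N : ℤ)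
    have h3 : ((S d (N : ℤ) (M : ℤ)) \ (B + B)).card + ((S d (N : ℤ) (M : ℤ)) ∩ (B + B)).card
        = (S d (N : ℤ) (M : ℤ)).card := card_sdiff_add_card_inter _ _
    have h4 : ((B + B).card : ℝ) + (P - C) ≤ 2 ^ (d + 1) * n := by
      have h5 : ((B + B).card : ℝ) + (((S d (N : ℤ) (M : ℤ)) \ (B + B)).card : ℝ)
          ≤ 2 ^ (d + 1) * n := by
        rw [hn]
        exact_mod_cast h1.trans h2
      have h6 : (((S d (N : ℤ) (M : ℤ)) \ (B + B)).card : ℝ) + C = P := by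
        rw [hC, hP]
        exact_mod_cast h3
      linarith
    nlinarith
  -- half of the shell is covered
  have hhalf : ε * n ≤ (q : ℝ) ^ d * (M : ℝ) ^ (d + 2) / 4 := by
    have h1 : ε * n ≤ ε * (2 ^ (d + 1) *
        ((d : ℝ) ^ (d + 2) * (q : ℝ) ^ (d + 2) * (M : ℝ) ^ (d + 2))) :=
      mul_le_mul_of_nonneg_left hnle hε.le
    have h2 : ε * (2 ^ (d + 1) * ((d : ℝ) ^ (d + 2) * (q : ℝ) ^ (d + 2) * (M : ℝ) ^ (d + 2)))
        = (ε * (q : ℝ) ^ 2) * (2 ^ (d + 1) * (d : ℝ) ^ (d + 2)) *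
          ((q : ℝ) ^ d * (M : ℝ) ^ (d + 2)) := by ring
    have hpos : (0 : ℝ) < 2 ^ (d + 1) * (d : ℝ) ^ (d + 2) := by positivity
    have h3 : (ε * (q : ℝ) ^ 2) * (2 ^ (d + 1) * (d : ℝ) ^ (d + 2)) ≤ 1 / 4 := by
      have h4 : (ε * (q : ℝ) ^ 2) * (2 ^ (d + 1) * (d : ℝ) ^ (d + 2))
          ≤ kap d * (2 ^ (d + 1) * (d : ℝ) ^ (d + 2)) :=
        mul_le_mul_of_nonneg_right hεq hpos.le
      have h5 : kap d * (2 ^ (d + 1) * (d : ℝ) ^ (d + 2)) = 1 / 4 := by
        unfold kap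
        have hpos' : (0 : ℝ) < (d : ℝ) ^ (d + 2) := by positivity
        field_simp
        ring
      linarith
    have h6 : (ε * (q : ℝ) ^ 2) * (2 ^ (d + 1) * (d : ℝ) ^ (d + 2)) *
          ((q : ℝ) ^ d * (M : ℝ) ^ (d + 2)) ≤ 1 / 4 * ((q : ℝ) ^ d * (M : ℝ) ^ (d + 2)) :=
      mul_le_mul_of_nonneg_right h3 (by positivity)
    linarith
  have hCge : (q : ℝ) ^ d * (M : ℝ) ^ (d + 2) / 4 ≤ C := by linarith
  -- conclusion
  have hs2 : s ^ 2 ≤ c ^ 2 * n := by
    have h1 : s ^ 2 ≤ (c * Real.sqrt n) ^ 2 := pow_le_pow_left₀ hs0 hBc 2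
    rw [mul_pow, Real.sq_sqrt hn0.le] at h1
    exact h1
  have hX : ((q : ℝ) ^ d * (M : ℝ) ^ (d + 2) / 4) ^ 2 ≤ 2 * 36 ^ d * (M : ℝ) ^ (d + 2) *
      (c ^ 2 * (2 ^ (d + 1) * ((d : ℝ) ^ (d + 2) * (q : ℝ) ^ (d + 2) * (M : ℝ) ^ (d + 2)))) := by
    have h1 : ((q : ℝ) ^ d * (M : ℝ) ^ (d + 2) / 4) ^ 2 ≤ C ^ 2 :=
      pow_le_pow_left₀ (by positivity) hCge 2
    have h2 : 2 * 36 ^ d * (M : ℝ) ^ (d + 2) * s ^ 2 ≤ 2 * 36 ^ d * (M : ℝ) ^ (d + 2) *
      (c ^ 2 * (2 ^ (d + 1) * ((d : ℝ) ^ (d + 2) * (q : ℝ) ^ (d + 2) * (M : ℝ) ^ (d + 2)))) := by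
      refine mul_le_mul_of_nonneg_left ?_ (by positivity)
      exact hs2.trans (mul_le_mul_of_nonneg_left hnle (sq_nonneg _))
    linarith
  obtain ⟨e, rfl⟩ : ∃ e, d = e + 2 := ⟨d - 2, by omega⟩
  have hpos : (0 : ℝ) < (q : ℝ) ^ (e + 2 + 2) * ((M : ℝ) ^ (e + 2 + 2)) ^ 2 / 16 := by positivity
  have h7 : (q : ℝ) ^ e * ((q : ℝ) ^ (e + 2 + 2) * ((M : ℝ) ^ (e + 2 + 2)) ^ 2 / 16)
      ≤ (K (e + 2) * c ^ 2) * ((q : ℝ) ^ (e + 2 + 2) * ((M : ℝ) ^ (e + 2 + 2)) ^ 2 / 16) := by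
    refine le_trans (le_of_eq ?_) (hX.trans (le_of_eq ?_))
    · ring
    · unfold K
      ring
  have h8 := le_of_mul_le_mul_right h7 hpos
  simpa using h8

/-- **Main theorem.**  For every `k ≥ 4` the answer to Q1 is no: for every `c` there is `ε > 0`
such that for every `t` there is a finite `A ⊆ ℤ^k`, not contained in `t` parallel hyperplanes,
all of whose subsets `A'` with `|A'| ≤ c √|A|` satisfy `|A' + A'| < (2^k - ε) |A|`.  Moreover a
constant which works for a small `ε` is at least `a ε^(-(k-3)/4)`. -/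
theorem result (k : ℕ) (hk : 4 ≤ k) :
    (∀ c : ℝ, ∃ ε : ℝ, 0 < ε ∧ ∀ t : ℕ, ∃ A : Finset (Fin k → ℤ), ¬ InHyperplanes A t ∧
      ∀ A' ⊆ A, (A'.card : ℝ) ≤ c * Real.sqrt A.card →
        ((A' + A').card : ℝ) < ((2 : ℝ) ^ k - ε) * A.card) ∧
    (∃ a : ℝ, 0 < a ∧ ∃ ε₀ : ℝ, 0 < ε₀ ∧ ∀ ε : ℝ, 0 < ε → ε < ε₀ → ∀ c : ℝ, Works k c ε →
      a * ε ^ (-(((k : ℝ) - 3) / 4)) ≤ c) := by
  have key : ∃ a : ℝ, 0 < a ∧ ∃ ε₀ : ℝ, 0 < ε₀ ∧ ∀ ε : ℝ, 0 < ε → ε < ε₀ → ∀ c : ℝ,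
      Works k c ε → a * ε ^ (-(((k : ℝ) - 3) / 4)) ≤ c := by
    obtain ⟨d, rfl⟩ : ∃ d, k = d + 1 := ⟨k - 1, by omega⟩
    have hd : 3 ≤ d := by omega
    have hκ : 0 < kap d := by
      unfold kap
      have : (0 : ℝ) < d := by exact_mod_cast (by omega : 0 < d)
      positivity
    have hK : 0 < K d := by
      unfold K
      have : (0 : ℝ) < d := by exact_mod_cast (by omega : 0 < d)
      positivity
    refine ⟨Real.sqrt ((kap d / 4) ^ (((d : ℝ) - 2) / 2) / K d), ?_, kap d, hκ, ?_⟩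
    · apply Real.sqrt_pos.2
      positivity
    intro ε hε hεκ c hW
    set r : ℝ := Real.sqrt (kap d / ε) with hr
    have hr1 : 1 ≤ r := by
      rw [hr]
      apply Real.one_le_sqrt.2
      rw [le_div_iff₀ hε]
      linarith
    set q : ℕ := ⌊r⌋₊ with hq
    have hq1 : 1 ≤ q := Nat.le_floor (by simpa using hr1)
    have hqr : (q : ℝ) ≤ r := Nat.floor_le (by linarith)
    have hqr2 : r / 2 ≤ q := by
      have h1 : r < q + 1 := Nat.lt_floor_add_one r
      have h2 : (1 : ℝ) ≤ q := by exact_mod_cast hq1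
      linarith
    have hrsq : r ^ 2 = kap d / ε := Real.sq_sqrt (by positivity)
    obtain ⟨hc0, h3⟩ := core (d := d) (by omega) q hq1 hε (by
      have h4 : (q : ℝ) ^ 2 ≤ r ^ 2 := pow_le_pow_left₀ (by positivity) hqr 2
      rw [hrsq] at h4
      have h5 := mul_le_mul_of_nonneg_left h4 hε.le
      rwa [mul_div_cancel₀ _ hε.ne'] at h5) hW
    -- (r/2)^(d-2) ≤ K c^2
    have h6 : (r / 2) ^ (d - 2) ≤ K d * c ^ 2 :=
      (pow_le_pow_left₀ (by positivity) hqr2 _).trans h3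
    have h7 : (r / 2) ^ (d - 2) = (kap d / 4) ^ (((d : ℝ) - 2) / 2) * ε ^ (-(((d : ℝ) - 2) / 2)) := by
      have e1 : r / 2 = ((kap d / 4) * ε⁻¹) ^ ((1 : ℝ) / 2) := by
        rw [← Real.sqrt_eq_rpow, hr]
        have : kap d / 4 * ε⁻¹ = (kap d / ε) / 4 := by ring
        rw [this, Real.sqrt_div' _ (by norm_num : (0 : ℝ) ≤ 4)]
        have h4 : Real.sqrt 4 = 2 := by
          rw [show (4 : ℝ) = 2 ^ 2 by norm_num]
          exact Real.sqrt_sq (by norm_num)
        rw [h4]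
      rw [e1, ← Real.rpow_natCast, ← Real.rpow_mul (by positivity)]
      have e2 : (1 : ℝ) / 2 * ((d - 2 : ℕ) : ℝ) = ((d : ℝ) - 2) / 2 := by
        rw [Nat.cast_sub (by omega)]
        push_cast
        ring
      rw [e2, Real.mul_rpow (by positivity) (by positivity), Real.inv_rpow hε.le,
        Real.rpow_neg hε.le]
    have h8 : (kap d / 4) ^ (((d : ℝ) - 2) / 2) / K d * ε ^ (-(((d : ℝ) - 2) / 2)) ≤ c ^ 2 := by
      rw [h7] at h6
      rw [div_mul_eq_mul_div, div_le_iff₀ hK]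
      linarith
    have h9 : (Real.sqrt ((kap d / 4) ^ (((d : ℝ) - 2) / 2) / K d) *
        ε ^ (-((((d + 1 : ℕ) : ℝ) - 3) / 4))) ^ 2 ≤ c ^ 2 := by
      rw [mul_pow, Real.sq_sqrt (by positivity), ← Real.rpow_natCast, ← Real.rpow_mul hε.le]
      have : -((((d + 1 : ℕ) : ℝ) - 3) / 4) * ((2 : ℕ) : ℝ) = -(((d : ℝ) - 2) / 2) := by
        push_cast
        ring
      rw [this]
      exact h8
    exact (sq_le_sq₀ (by positivity) hc0).1 h9
  refine ⟨?_, key⟩
  intro c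
  obtain ⟨a, ha, ε₀, hε₀, h⟩ := key
  have hexp : 0 < ((k : ℝ) - 3) / 4 := by
    have : (4 : ℝ) ≤ k := by exact_mod_cast hk
    linarith
  have hlim : Filter.Tendsto (fun x : ℝ => a * x ^ (((k : ℝ) - 3) / 4)) Filter.atTop Filter.atTop :=
    (tendsto_rpow_atTop hexp).const_mul_atTop ha
  obtain ⟨x, hx1, hx2⟩ := ((hlim.eventually_gt_atTop c).and
    (Filter.eventually_gt_atTop (1 / ε₀ + 1))).exists
  have hx0 : 0 < x := by
    have : 0 < 1 / ε₀ := by positivity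
    linarith
  refine ⟨x⁻¹, inv_pos.2 hx0, ?_⟩
  by_contra hcon
  have hW : Works k c x⁻¹ := by
    push Not at hcon
    obtain ⟨t, ht⟩ := hcon
    exact ⟨t, fun A hA => ht A hA⟩
  have h1 : x⁻¹ < ε₀ := by
    rw [inv_lt_comm₀ hx0 hε₀]
    rw [inv_eq_one_div]
    linarith
  have h2 := h x⁻¹ (inv_pos.2 hx0) h1 c hW
  rw [Real.inv_rpow hx0.le, Real.rpow_neg hx0.le, inv_inv] at h2
  linarith

end Pool.Agent.Results.MP_0aa4f4_co.DimensionAtLeastFour
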